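import Mathlib

/-!
Self-similar groups given by a recursion: words, sections, the action on vertices, level
transitivity. Numerical inputs and abstract recursions.
-/

set_option autoImplicit false

namespace Pool.Agent.W447.LT

/-- words in generators and their inverses: `(g, true)` is the generator `g`, `(g, false)` is its
inverse; the leftmost letter of a word acts last -/
abbrev W (Γ : Type) := List (Γ × Bool)

/-- the formal inverse of a word -/
def winv {Γ : Type} (w : W Γ) : W Γ := (w.map fun s => (s.1, !s.2)).reverse

/-- an abstract recursion over the alphabet `X` with generators `Γ`: a root permutation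
and section words -/
structure AR (Γ X : Type) where
  perm : Γ → Equiv.Perm X
  sec : Γ → X → W Γ

namespace AR

variable {Γ X : Type} (R : AR Γ X)

/-- image of the letter `x` and section at `x` of a generator or of the inverse of a generator -/
def one (s : Γ × Bool) (x : X) : X × W Γ :=
  if s.2 then (R.perm s.1 x, R.sec s.1 x)
  else ((R.perm s.1).symm x, winv (R.sec s.1 ((R.perm s.1).symm x)))

/-- image of the letter `x` and section at `x` of a word -/
def rs : W Γ → X → X × W Γ
  | [], x => (x, [])
  | s :: w, x => ((R.one s (rs w x).1).1, (R.one s (rs w x).1).2 ++ (rs w x).2)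

/-- `act v w` is the image of the vertex `v` under the word `w` -/
def act : List X → W Γ → List X
  | [], _ => []
  | x :: v, w => (R.rs w x).1 :: act v (R.rs w x).2

/-- level transitivity -/
def LevTr : Prop := ∀ u v : List X, u.length = v.length → ∃ w : W Γ, R.act u w = v

end AR

section basic

variable {Γ X : Type} (R : AR Γ X)

theorem winv_winv (w : W Γ) : winv (winv w) = w := by
  simp [winv, Function.comp_def]

theorem winv_append (u w : W Γ) : winv (u ++ w) = winv w ++ winv u := by
  simp [winv]

theorem winv_nil : winv ([] : W Γ) = [] := rfl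

theorem winv_cons (s : Γ × Bool) (w : W Γ) : winv (s :: w) = winv w ++ [(s.1, !s.2)] := by
  simp [winv]

theorem act_nil (w : W Γ) : R.act [] w = [] := rfl

theorem act_cons (x : X) (v : List X) (w : W Γ) :
    R.act (x :: v) w = (R.rs w x).1 :: R.act v (R.rs w x).2 := rfl

theorem act_length (v : List X) (w : W Γ) : (R.act v w).length = v.length := by
  induction v generalizing w with
  | nil => rfl
  | cons x v ih => simp [act_cons, ih]

theorem rs_append (u w : W Γ) (x : X) :
    R.rs (u ++ w) x = ((R.rs u (R.rs w x).1).1, (R.rs u (R.rs w x).1).2 ++ (R.rs w x).2) := by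
  induction u with
  | nil => simp [AR.rs]
  | cons s u ih => simp [AR.rs, ih]

theorem act_append (v : List X) (u w : W Γ) : R.act v (u ++ w) = R.act (R.act v w) u := by
  induction v generalizing u w with
  | nil => rfl
  | cons x v ih => simp [act_cons, rs_append, ih]

theorem act_one (v : List X) : R.act v [] = v := by
  induction v with
  | nil => rfl
  | cons x v ih => simp [act_cons, AR.rs, ih]

theorem one_inv (s : Γ × Bool) (x : X) :
    R.one (s.1, !s.2) (R.one s x).1 = (x, winv (R.one s x).2) := by
  obtain ⟨g, b⟩ := s
  cases b <;> simp [AR.one, winv_winv]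

theorem rs_inv (w : W Γ) (x : X) : R.rs (winv w) (R.rs w x).1 = (x, winv (R.rs w x).2) := by
  induction w with
  | nil => rfl
  | cons s w ih =>
    rw [winv_cons, rs_append]
    have h : R.rs [(s.1, !s.2)] (R.rs (s :: w) x).1
        = ((R.rs w x).1, winv (R.one s (R.rs w x).1).2) := by
      show ((R.one (s.1, !s.2) (R.rs (s :: w) x).1).1,
        (R.one (s.1, !s.2) (R.rs (s :: w) x).1).2 ++ []) = _
      have := one_inv R s (R.rs w x).1
      simp only [AR.rs, List.append_nil]
      rw [this]
    rw [h]
    simp only [ih, AR.rs, winv_append]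

theorem act_inv (v : List X) (w : W Γ) : R.act (R.act v w) (winv w) = v := by
  induction v generalizing w with
  | nil => rfl
  | cons x v ih =>
    rw [act_cons, act_cons, rs_inv]
    simp [ih]

theorem act_inv' (v : List X) (w : W Γ) : R.act (R.act v (winv w)) w = v := by
  have := act_inv R v (winv w)
  rwa [winv_winv] at this

/-- one generator: the defining recursion `g (x v) = σ x h_x (v)` -/
theorem act_gen (g : Γ) (x : X) (v : List X) :
    R.act (x :: v) [(g, true)] = R.perm g x :: R.act v (R.sec g x) := by
  simp [act_cons, AR.rs, AR.one]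

end basic

/-! ### numerical inputs -/

/-- An input of the decision problem: the size `d` of the alphabet `0, …, d-1` and the list of the
generators; a generator is the list of the pairs `(σ(x), h_x)`, `x = 0, …, d-1`, where the word
`h_x` is a list of pairs (number of a generator, sign). -/
abbrev Rec := ℕ × List (List (ℕ × List (ℕ × Bool)))

namespace Rec

variable (R : Rec)

/-- `σ_i(x)` -/
def im (i x : ℕ) : ℕ := ((R.2.getD i []).getD x (0, [])).1

/-- `h_{i,x}` -/
def sc (i x : ℕ) : List (ℕ × Bool) := ((R.2.getD i []).getD x (0, [])).2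

/-- `σ_i^{-1}(y)` -/
def pre (i y : ℕ) : ℕ := ((R.2.getD i []).map Prod.fst).idxOf y

/-- the input is a correct recursion: every `σ_i` is a permutation of `0, …, d-1`, where `d ≥ 2`,
and every `h_{i,x}` is a word in the generators -/
def Valid : Prop :=
  2 ≤ R.1 ∧ ∀ g ∈ R.2, (g.map Prod.fst).Perm (List.range R.1) ∧
    ∀ p ∈ g, ∀ s ∈ p.2, s.1 < R.2.length

/-- image of the letter `x` and section at `x` of the generator number `s.1` (if the sign `s.2` is
`true`) or of its inverse (if `s.2` is `false`) -/
def one (s : ℕ × Bool) (x : ℕ) : ℕ × List (ℕ × Bool) :=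
  if s.2 then (R.im s.1 x, R.sc s.1 x) else (R.pre s.1 x, winv (R.sc s.1 (R.pre s.1 x)))

/-- image of the letter `x` and section at `x` of a word -/
def rs : List (ℕ × Bool) → ℕ → ℕ × List (ℕ × Bool)
  | [], x => (x, [])
  | s :: w, x => ((R.one s (rs w x).1).1, (R.one s (rs w x).1).2 ++ (rs w x).2)

/-- `act v w` is the image of the vertex `v` under the word `w` -/
def act : List ℕ → List (ℕ × Bool) → List ℕ
  | [], _ => []
  | x :: v, w => (R.rs w x).1 :: act v (R.rs w x).2

/-- the group given by the recursion acts transitively on every level -/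
def LevelTransitive : Prop :=
  ∀ n : ℕ, ∀ u v : List ℕ, u.length = n → v.length = n → (∀ x ∈ u, x < R.1) → (∀ x ∈ v, x < R.1) →
    ∃ w : List (ℕ × Bool), (∀ s ∈ w, s.1 < R.2.length) ∧ R.act u w = v

end Rec

/-- translation of a word along a numbering of the generators -/
def ew {Γ : Type} {k : ℕ} (e : Γ ≃ Fin k) (w : W Γ) : List (ℕ × Bool) :=
  w.map fun s => ((e s.1 : ℕ), s.2)

/-- the numerical input of an abstract recursion -/
def code {Γ X : Type} {k d : ℕ} (e : Γ ≃ Fin k) (c : X ≃ Fin d) (R : AR Γ X) : Rec :=
  (d, List.ofFn fun i : Fin k => List.ofFn fun x : Fin d =>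
    ((c (R.perm (e.symm i) (c.symm x)) : ℕ), ew e (R.sec (e.symm i) (c.symm x))))

/-! ### the skew product -/

/-- words of the base as words of the skew product -/
def upw {Γ : Type} (w : W Γ) : W (Option Γ) := w.map fun s => (some s.1, s.2)

/-- `(a0, β) ↦ (a0, ¬β)`, identity elsewhere -/
def flipAt {A : Type} [DecidableEq A] (a0 : A) : Equiv.Perm (A × Bool) where
  toFun x := (x.1, if x.1 = a0 then !x.2 else x.2)
  invFun x := (x.1, if x.1 = a0 then !x.2 else x.2)
  left_inv x := by
    obtain ⟨a, b⟩ := x
    by_cases h : a = a0 <;> simp [h]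
  right_inv x := by
    obtain ⟨a, b⟩ := x
    by_cases h : a = a0 <;> simp [h]

/-- The skew product of a recursion `M` over `A`: alphabet `A × Bool`, one new generator `none`
which flips the second coordinate at the letters `(a0, _)` and has the section
`none * (w * none * w⁻¹)` at the letters `(z, _)`. -/
def skew {Γ A : Type} [DecidableEq A] (M : AR Γ A) (w : W Γ) (z a0 : A) :
    AR (Option Γ) (A × Bool) where
  perm g := match g with
    | none => flipAt a0
    | some g => (M.perm g).prodCongr (Equiv.refl Bool)
  sec g x := match g with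
    | none => if x.1 = z then (none, true) :: (upw w ++ (none, true) :: winv (upw w)) else []
    | some g => upw (M.sec g x.1)

/-! ### the base recursion -/

open Polynomial

/-- letters of the tape part: a clock bit, a source column, a target column -/
abbrev E (N : ℕ) := ZMod 2 × (Fin N → ZMod 2) × (Fin N → ZMod 2)

/-- the alphabet: tape letters and three special letters -/
abbrev A (N : ℕ) := E N ⊕ Fin 3

/-- data of an update: multiply the clock by `1 + t` once or twice, swap source and target first
or not, add `f` times the clock to the target -/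
structure Up (N : ℕ) where
  dbl : Bool
  sw : Bool
  f : Fin N → ZMod 2

/-- generators of the base -/
inductive Gn (N : ℕ) (S : Type)
  | t
  | al
  | mu
  | sg
  | la
  | nu (f : Fin N → ZMod 2)
  | be (f : Fin N → ZMod 2)
  | z (s : S)

/-- extension of a permutation of the tape letters -/
def onE {N : ℕ} (p : Equiv.Perm (E N)) : Equiv.Perm (A N) := Equiv.sumCongr p (Equiv.refl _)

/-- adding `1` to the clock bit -/
def pAl (N : ℕ) : Equiv.Perm (E N) := (Equiv.addRight (1 : ZMod 2)).prodCongr (Equiv.refl _)

/-- swapping the columns -/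
def pSg (N : ℕ) : Equiv.Perm (E N) := (Equiv.refl _).prodCongr (Equiv.prodComm _ _)

/-- adding the clock bit times `f` to the target column -/
def pNu {N : ℕ} (f : Fin N → ZMod 2) : Equiv.Perm (E N) where
  toFun e := (e.1, e.2.1, e.2.2 + e.1 • f)
  invFun e := (e.1, e.2.1, e.2.2 - e.1 • f)
  left_inv e := by simp
  right_inv e := by simp

/-- adding `f` to the source column -/
def pBe {N : ℕ} (f : Fin N → ZMod 2) : Equiv.Perm (E N) :=
  (Equiv.refl _).prodCongr ((Equiv.addRight f).prodCongr (Equiv.refl _))

/-- the cyclic permutation of all letters -/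
noncomputable def cyc (X : Type) [Fintype X] : Equiv.Perm X :=
  ((Fintype.equivFin X).trans (finRotate (Fintype.card X))).trans (Fintype.equivFin X).symm

/-- the word of an update -/
def kw {N : ℕ} {S : Type} (u : Up N) : W (Gn N S) :=
  (if u.dbl then [(Gn.mu, true), (Gn.mu, true)] else [(Gn.mu, true)]) ++
    ((Gn.nu u.f, true) :: (if u.sw then [(Gn.sg, true)] else []))

/-- The base recursion with transition function `δ`. -/
noncomputable def base {N : ℕ} {S : Type} (δ : S → E N → Option (S × Up N)) :
    AR (Gn N S) (A N) where
  perm g := match g with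
    | .t => cyc (A N)
    | .al => onE (pAl N)
    | .mu => Equiv.refl _
    | .sg => onE (pSg N)
    | .la => Equiv.refl _
    | .nu f => onE (pNu f)
    | .be f => onE (pBe f)
    | .z _ => Equiv.sumCongr (Equiv.refl _) (finRotate 3)
  sec g x := match g, x with
    | .t, x => if x = Sum.inl 0 then [(Gn.t, true)] else []
    | .mu, .inl e => (if e.1 = 0 then [] else [(Gn.al, true)]) ++ [(Gn.mu, true)]
    | .sg, .inl _ => [(Gn.sg, true)]
    | .la, .inl e => [(Gn.be e.2.1, true), (Gn.la, true)]
    | .nu f, .inl _ => [(Gn.nu f, true)]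
    | .z s, .inl e =>
      match δ s e with
      | none => []
      | some (s', u) => winv (kw u) ++ (Gn.z s', true) :: kw u
    | _, _ => []

/-- contents: clock, source, target (polynomials over the field with two elements) -/
abbrev C (N : ℕ) := (ZMod 2)[X] × (Fin N → (ZMod 2)[X]) × (Fin N → (ZMod 2)[X])

/-- the first letter of a content -/
def hd {N : ℕ} (c : C N) : E N := (c.1.coeff 0, fun r => (c.2.1 r).coeff 0, fun r => (c.2.2 r).coeff 0)

/-- the content without its first letter -/
noncomputable def tl {N : ℕ} (c : C N) : C N :=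
  (c.1.divX, fun r => (c.2.1 r).divX, fun r => (c.2.2 r).divX)

/-- the first `i` letters of a content -/
noncomputable def tr {N : ℕ} : ℕ → C N → List (A N)
  | 0, _ => []
  | i + 1, c => Sum.inl (hd c) :: tr i (tl c)

/-- the effect of an update on contents -/
noncomputable def upd {N : ℕ} (u : Up N) (c : C N) : C N :=
  let s := if u.sw then (c.2.2, c.2.1) else c.2
  ((1 + X) ^ (if u.dbl then 2 else 1) * c.1, s.1, fun r => s.2 r + Polynomial.C (u.f r) * c.1)

/-- one step of the run -/
noncomputable def st {N : ℕ} {S : Type} (δ : S → E N → Option (S × Up N)) (x : S × C N) :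
    Option (S × C N) :=
  match δ x.1 (hd x.2) with
  | none => none
  | some (s', u) => some (s', upd u (tl x.2))

/-- the run survives `i` steps -/
def alive {N : ℕ} {S : Type} (δ : S → E N → Option (S × Up N)) : ℕ → S × C N → Prop
  | 0, _ => True
  | i + 1, x =>
    match st δ x with
    | none => False
    | some y => alive δ i y

/-- the word of the initial content -/
def iw {N : ℕ} {S : Type} (r0 : Fin N) (n : ℕ) : W (Gn N S) :=
  (Gn.al, true) :: (List.replicate (2 ^ n) (Gn.mu, true) ++ (Gn.al, true) ::
    (List.replicate n [(Gn.be (Pi.single r0 1), true), (Gn.la, true)]).flatten)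

/-- the initial content -/
noncomputable def ic {N : ℕ} (r0 : Fin N) (n : ℕ) : C N :=
  (X ^ 2 ^ n, Pi.single r0 (∑ i ∈ Finset.range n, (1 + X) ^ i), 0)

/-- the word `V⁻¹ z V` of the initial configuration -/
def cw {N : ℕ} {S : Type} (s0 : S) (r0 : Fin N) (n : ℕ) : W (Gn N S) :=
  winv (iw r0 n) ++ (Gn.z s0, true) :: iw r0 n

/-! ### register machines -/

/-- instructions of a register machine -/
inductive MI (N : ℕ) (Q : Type)
  | inc (r : Fin N) (q : Q)
  | dec (r : Fin N) (q q' : Q)
  | jmp (q : Q)

/-- one step: `inc r q` increases `r`, `dec r q q'` decreases `r` if it is positive and goes to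
`q`, and goes to `q'` if it is zero -/
def mstep {N : ℕ} {Q : Type} (ins : Q → MI N Q) (x : Q × (Fin N → ℕ)) : Q × (Fin N → ℕ) :=
  match ins x.1 with
  | .inc r q => (q, Function.update x.2 r (x.2 r + 1))
  | .dec r q q' => if x.2 r = 0 then (q', x.2) else (q, Function.update x.2 r (x.2 r - 1))
  | .jmp q => (q, x.2)

/-- control states: copying phase, searching phase, searching phase done -/
inductive Ct (Q : Type)
  | B (q : Q)
  | ac (q : Q)
  | dn (q : Q)

/-- rewriting of a column in the searching phase -/
def rw1 {N : ℕ} {Q : Type} (ins : Q → MI N Q) (σ : Ct Q) (x : Fin N → ZMod 2) :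
    Ct Q × (Fin N → ZMod 2) :=
  match σ with
  | .ac q =>
    match ins q with
    | .inc r q1 => if x r = 0 then (.dn q1, x + Pi.single r 1) else (.ac q, x)
    | .dec r q1 _ => if x r = 1 then (.dn q1, x + Pi.single r 1) else (.ac q, x)
    | .jmp q1 => (.dn q1, x)
  | σ => (σ, x)

/-- the next label at the end of a searching phase -/
def elb {N : ℕ} {Q : Type} (ins : Q → MI N Q) (σ : Ct Q) : Q :=
  match σ with
  | .ac q =>
    match ins q with
    | .inc _ _ => q
    | .dec _ _ q' => q'
    | .jmp q1 => q1
  | .dn q => q
  | .B q => q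

/-- the transition function of a register machine: clock bit `0`: continue the phase, clock bit
`1`: the other phase begins -/
def dl {N : ℕ} {Q : Type} [DecidableEq Q] (ins : Q → MI N Q) (last : Q) (σ : Ct Q) (e : E N) :
    Option (Ct Q × Up N) :=
  match σ with
  | .B q =>
    if e.1 = 0 then some (.B q, ⟨true, false, e.2.1⟩)
    else some ((rw1 ins (.ac q) e.2.2).1, ⟨false, true, (rw1 ins (.ac q) e.2.2).2⟩)
  | σ =>
    if e.1 = 0 then some ((rw1 ins σ e.2.1).1, ⟨false, false, (rw1 ins σ e.2.1).2⟩)
    else if elb ins σ = last then none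
    else some (.B (elb ins σ), ⟨true, true, e.2.2⟩)

/-- initial registers -/
def st0 {N : ℕ} (r0 : Fin N) (n : ℕ) : Fin N → ℕ := Pi.single r0 n

end Pool.Agent.W447.LT
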