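import Pool.Agent.W447.LT.Defs

/-!
Exact statements of the parts of the proof that level transitivity of self-similar groups given by
a recursion is undecidable (MP_b2749c_lc).
-/

set_option autoImplicit false

namespace Pool.Agent.W447.LT

open Polynomial

/-- odometer -/
def ODO : Prop :=
  ∀ (Γ X : Type) [Fintype X] [DecidableEq X] (R : AR Γ X) (g : Γ) (x1 : X),
    R.perm g = cyc X → (∀ x, R.sec g x = if x = x1 then [(g, true)] else []) → R.LevTr

/-- skew product -/
def SKEW : Prop :=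
  ∀ (Γ A : Type) [DecidableEq A] (M : AR Γ A) (w : W Γ) (z : A) (a : Fin 3 → A) (al : ℕ → Prop),
    Function.Injective a → (∀ i, a i ≠ z) → M.LevTr →
    (∀ j i, al j → M.act (List.replicate j z ++ [a i]) w = List.replicate j z ++ [a (i + 1)]) →
    (∀ j x, (¬ al j ∨ ∀ i, x ≠ a i) →
      M.act (List.replicate j z ++ [x]) w = List.replicate j z ++ [x]) →
    ((skew M w z (a 0)).LevTr ↔ ∀ j, al j)

/-- encoding of an abstract recursion -/
def ENC : Prop :=
  ∀ (Γ X : Type) (k d : ℕ) (e : Γ ≃ Fin k) (c : X ≃ Fin d) (R : AR Γ X), 2 ≤ d →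
    Rec.Valid (code e c R) ∧ (Rec.LevelTransitive (code e c R) ↔ R.LevTr)

/-- effect of the word of an update on contents -/
def KW : Prop :=
  ∀ (N : ℕ) (S : Type) (δ : S → E N → Option (S × Up N)) (u : Up N) (i : ℕ) (c : C N)
    (s : List (A N)), (s = [] ∨ ∃ j : Fin 3, s = [Sum.inr j]) →
    (base δ).act (tr i c ++ s) (kw u) = tr i (upd u c) ++ s

/-- effect of the initial word -/
def IW : Prop :=
  ∀ (N : ℕ) (S : Type) (δ : S → E N → Option (S × Up N)) (r0 : Fin N) (n i : ℕ)
    (s : List (A N)), (s = [] ∨ ∃ j : Fin 3, s = [Sum.inr j]) →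
    (base δ).act (List.replicate i (Sum.inl 0) ++ s) (iw r0 n) = tr i (ic r0 n) ++ s

/-- the configuration word along the path `0, 0, …`, from `KW` and `IW` -/
def BASE : Prop :=
  ∀ (N : ℕ) (S : Type) (δ : S → E N → Option (S × Up N)) (s0 : S) (r0 : Fin N) (n : ℕ),
    (∀ (j : ℕ) (i : Fin 3), alive δ j (s0, ic r0 n) →
      (base δ).act (List.replicate j (Sum.inl 0) ++ [Sum.inr i]) (cw s0 r0 n) =
        List.replicate j (Sum.inl 0) ++ [Sum.inr (i + 1)]) ∧
    (∀ (j : ℕ) (x : A N), (¬ alive δ j (s0, ic r0 n) ∨ ∀ i : Fin 3, x ≠ Sum.inr i) →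
      (base δ).act (List.replicate j (Sum.inl 0) ++ [x]) (cw s0 r0 n) =
        List.replicate j (Sum.inl 0) ++ [x])

/-- `n` steps of the run -/
def Runs {N : ℕ} {S : Type} (δ : S → E N → Option (S × Up N)) : ℕ → S × C N → S × C N → Prop
  | 0, x, y => x = y
  | i + 1, x, y => ∃ x', st δ x = some x' ∧ Runs δ i x' y

/-- The contents during a phase with unit `u = 1 + X` (`b = false`) or `(1 + X) ^ 2` (`b = true`):
start with clock `X ^ T`, source `D` of degree less than `T`, target `0`; the update of the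
`i`-th step does not swap and adds `f i` times the clock. After `T` steps the clock is `u ^ T`,
the source is `0`, the target is `∑ f i u ^ i`. -/
def PHASE : Prop :=
  ∀ (N : ℕ) (S : Type) (δ : S → E N → Option (S × Up N)) (b : Bool) (T : ℕ)
    (D : Fin N → (ZMod 2)[X]) (σ : ℕ → S) (f : ℕ → Fin N → ZMod 2),
    (∀ r, D r = 0 ∨ (D r).natDegree < T) →
    (∀ i < T, ∀ y, δ (σ i) (0, (fun r => (D r).coeff i), y) =
      some (σ (i + 1), ⟨b, false, f i⟩)) →
    Runs δ T (σ 0, (X ^ T, D, 0))
      (σ T, (((1 + X) ^ (if b then 2 else 1)) ^ T, 0,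
        fun r => ∑ i ∈ Finset.range T, Polynomial.C (f i r) * ((1 + X) ^ (if b then 2 else 1)) ^ i))

/-- number of the nonzero coefficients -/
def wt (p : (ZMod 2)[X]) : ℕ := p.support.card

/-- One searching sweep, on coefficients: `σ 0 = ac q`, the states and the new columns follow
`rw1`; the columns are given by the polynomials `F r` of degree less than `T = 2 * T'`, all of
whose odd coefficients vanish. The sweep ends with the next label and the new registers of
`mstep`. -/
def SWEEP : Prop :=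
  ∀ (N : ℕ) (Q : Type) (ins : Q → MI N Q) (q : Q) (T : ℕ) (F : Fin N → (ZMod 2)[X])
    (σ : ℕ → Ct Q) (f : ℕ → Fin N → ZMod 2), 2 ≤ T →
    (∀ r, F r = 0 ∨ (F r).natDegree < T) → (∀ r, (F r).coeff 1 = 0) →
    σ 0 = .ac q →
    (∀ i < T, rw1 ins (σ i) (fun r => (F r).coeff i) = (σ (i + 1), f i)) →
    (∀ i ≤ T, ∀ q', σ i ≠ .B q') ∧
    (elb ins (σ T), fun r => wt (∑ i ∈ Finset.range T, Polynomial.C (f i r) * X ^ i)) =
      mstep ins (q, fun r => wt (F r))

/-- the run simulates the register machine, from `PHASE` and `SWEEP` -/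
def PCM : Prop :=
  ∀ (N : ℕ) (Q : Type) [DecidableEq Q] (ins : Q → MI N Q) (start last : Q) (r r0 : Fin N) (n : ℕ),
    ins last = .dec r last last →
    ((∀ i, alive (dl ins last) i (.B start, ic r0 n)) ↔
      ∀ j, ((mstep ins)^[j] (start, st0 r0 n)).1 ≠ last)

/-- Every recursively enumerable set of numbers is the halting set of a (deterministic) register
machine. -/
def DET : Prop :=
  ∀ S : Set ℕ, REPred (fun n => n ∈ S) →
    ∃ (N L : ℕ) (ins : Fin (L + 1) → MI (N + 1) (Fin (L + 1))) (r : Fin (N + 1)),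
      ins (Fin.last L) = .dec r (Fin.last L) (Fin.last L) ∧
      ∀ n, n ∈ S ↔ ∃ j, ((mstep ins)^[j] (0, st0 0 n)).1 = Fin.last L

/-- the reduction is computable -/
def COMPUT : Prop :=
  ∀ (N : ℕ) (S : Type) (δ : S → E N → Option (S × Up N)) (s0 : S) (r0 : Fin N) (k d : ℕ)
    (e : Option (Gn N S) ≃ Fin k) (c : (A N × Bool) ≃ Fin d),
    Computable fun n : ℕ => code e c (skew (base δ) (cw s0 r0 n) (Sum.inl 0) (Sum.inr 0))

/-- the answer: level transitivity is not decidable -/
def MAIN : Prop :=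
  ¬ ∃ f : Rec → Bool, Computable f ∧ ∀ R : Rec, R.Valid → (f R = true ↔ R.LevelTransitive)

end Pool.Agent.W447.LT
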